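import Mathlib
import Pool.Agent.H381R4.CM.Stubs

/-! Task MAR: the marginal of the lifted density.  Owner: helper202. -/

set_option autoImplicit false
open MeasureTheory Matrix Filter Topology
open scoped ENNReal BigOperators Pointwise

namespace Pool.Agent.H381CM

namespace MAR

theorem gg_expand {d : ℕ} {ι : Type} [Fintype ι] [DecidableEq ι] (u : ι → V d)
    (p : ι → Polynomial ℝ) (M : ℕ) (hM : ∀ k, (p k).natDegree < M) (x : V d) :
    gg u p x = ∑ m : ι → Fin M, (∏ k, (p k).coeff (m k : ℕ)) *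
      Real.exp (-∑ k, ((m k : ℕ) : ℝ) * (u k ⬝ᵥ x) ^ 2) := by
  unfold gg XX
  have h1 : ∀ k, (p k).eval (Real.exp (-(u k ⬝ᵥ x) ^ 2)) =
      ∑ j : Fin M, (p k).coeff (j : ℕ) * Real.exp (-(u k ⬝ᵥ x) ^ 2) ^ (j : ℕ) := by
    intro k
    rw [Polynomial.eval_eq_sum_range' (hM k), Finset.sum_range]
  simp only [h1]
  rw [Finset.prod_univ_sum, Fintype.piFinset_univ]
  refine Finset.sum_congr rfl fun m _ => ?_
  rw [Finset.prod_mul_distrib]
  congr 1
  rw [← Finset.sum_neg_distrib, Real.exp_sum]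
  refine Finset.prod_congr rfl fun k _ => ?_
  rw [← Real.exp_nat_mul]
  congr 1
  ring

end MAR

theorem T_MAR : S_EXP → S_GAU → S_PDF → S_MAR := by
  classical
  intro hE hG hP d ι _ u p hu hp x
  obtain ⟨M, hM⟩ : ∃ M : ℕ, ∀ k, (p k).natDegree < M :=
    ⟨Finset.univ.sup (fun k => (p k).natDegree) + 1, fun k => Nat.lt_succ_of_le
      (Finset.le_sup (f := fun k => (p k).natDegree) (Finset.mem_univ k))⟩
  have hpi : Real.pi ^ d ≠ 0 := pow_ne_zero _ Real.pi_ne_zero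
  have key : ∀ m : ι → Fin M,
      Integrable (fun q : V d × V d => (∏ k, (p k).coeff (m k : ℕ)) *
        ((AA u (fun k => ((m k : ℕ) : ℝ))).det / Real.pi ^ d) *
          Real.exp (-∑ k, ((m k : ℕ) : ℝ) * tt u x q.1 q.2 k)) ∧
      ∫ q : V d × V d, (∏ k, (p k).coeff (m k : ℕ)) *
        ((AA u (fun k => ((m k : ℕ) : ℝ))).det / Real.pi ^ d) *
          Real.exp (-∑ k, ((m k : ℕ) : ℝ) * tt u x q.1 q.2 k) =
        (∏ k, (p k).coeff (m k : ℕ)) *
          Real.exp (-∑ k, ((m k : ℕ) : ℝ) * (u k ⬝ᵥ x) ^ 2) := by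
    intro m
    by_cases h0 : ∃ k, (m k : ℕ) = 0
    · obtain ⟨k, hk⟩ := h0
      have h1 : (∏ k, (p k).coeff (m k : ℕ)) = 0 :=
        Finset.prod_eq_zero (Finset.mem_univ k) (by rw [hk]; exact hp k)
      rw [h1]
      simp
    · push Not at h0
      obtain ⟨A, hA⟩ : ∃ A : Matrix (Fin d) (Fin d) ℝ, A = AA u (fun k => ((m k : ℕ) : ℝ)) :=
        ⟨_, rfl⟩
      obtain ⟨hq, hpd⟩ := hP d ι u (fun k => ((m k : ℕ) : ℝ))
      have hA1 : A.PosDef := by
        rw [hA]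
        exact hpd hu fun k => Nat.cast_pos.2 (Nat.pos_of_ne_zero (h0 k))
      obtain ⟨-, hint, hval⟩ := hG d A hA1
      have hdet : A.det ≠ 0 := hA1.det_pos.ne'
      have hexp : ∀ q : V d × V d, Real.exp (-∑ k, ((m k : ℕ) : ℝ) * tt u x q.1 q.2 k) =
          Real.exp (-∑ k, ((m k : ℕ) : ℝ) * (u k ⬝ᵥ x) ^ 2) *
            Real.exp (-(q.1 ⬝ᵥ A *ᵥ q.1 + q.2 ⬝ᵥ A *ᵥ q.2)) := by
        intro q
        rw [← Real.exp_add, hA, hq q.1, hq q.2]
        congr 1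
        unfold tt
        simp only [mul_add, Finset.sum_add_distrib]
        ring
      simp only [hexp]
      rw [← hA]
      have hassoc : ∀ q : V d × V d, (∏ k, (p k).coeff (m k : ℕ)) * (A.det / Real.pi ^ d) *
          (Real.exp (-∑ k, ((m k : ℕ) : ℝ) * (u k ⬝ᵥ x) ^ 2) *
            Real.exp (-(q.1 ⬝ᵥ A *ᵥ q.1 + q.2 ⬝ᵥ A *ᵥ q.2))) =
          ((∏ k, (p k).coeff (m k : ℕ)) * (A.det / Real.pi ^ d) *
            Real.exp (-∑ k, ((m k : ℕ) : ℝ) * (u k ⬝ᵥ x) ^ 2)) *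
            Real.exp (-(q.1 ⬝ᵥ A *ᵥ q.1 + q.2 ⬝ᵥ A *ᵥ q.2)) := fun q => by ring
      simp only [hassoc]
      refine ⟨hint.const_mul _, ?_⟩
      rw [integral_const_mul, hval]
      field_simp
  have hGG : (fun q : V d × V d => GG u p x q.1 q.2) = fun q : V d × V d =>
      ∑ m : ι → Fin M, (∏ k, (p k).coeff (m k : ℕ)) *
        ((AA u (fun k => ((m k : ℕ) : ℝ))).det / Real.pi ^ d) *
          Real.exp (-∑ k, ((m k : ℕ) : ℝ) * tt u x q.1 q.2 k) := by
    funext q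
    exact hE d ι u p M hM x q.1 q.2
  rw [hGG]
  refine ⟨integrable_finset_sum _ fun m _ => (key m).1, ?_⟩
  rw [integral_finset_sum _ fun m _ => (key m).1, MAR.gg_expand u p M hM x]
  exact Finset.sum_congr rfl fun m _ => (key m).2

end Pool.Agent.H381CM
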